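import Pool.Agent.R709.TR.Trees

/-!
Every caterpillar with 7 leaves is one of the explicit caterpillars.
-/

set_option autoImplicit false

namespace Pool.Agent.R709.TR

/-- position of the `x`-th leaf on the spine -/
def pos : Fin 7 → Fin 5 := ![0, 0, 1, 2, 3, 4, 4]

/-- number of spine neighbors -/
def nb (k : ℕ) (i : Fin k) : ℕ :=
  (Finset.univ.filter fun j : Fin k => (i : ℕ) + 1 = j ∨ (j : ℕ) + 1 = i).card

theorem nb_le (k : ℕ) (i : Fin k) : nb k i ≤ 2 := by
  classical
  unfold nb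
  have h1 : ((Finset.univ.filter fun j : Fin k => (i : ℕ) + 1 = j ∨ (j : ℕ) + 1 = i)).card ≤
      ({(i : ℕ) + 1, (i : ℕ) - 1} : Finset ℕ).card := by
    refine Finset.card_le_card_of_injOn (fun j : Fin k => (j : ℕ)) ?_ ?_
    · intro j hj
      have hj' := (Finset.mem_filter.1 hj).2
      show (j : ℕ) ∈ (({(i : ℕ) + 1, (i : ℕ) - 1} : Finset ℕ) : Set ℕ)
      rw [Finset.mem_coe, Finset.mem_insert, Finset.mem_singleton]
      omega
    · intro j _ j' _ h
      exact Fin.ext h
  exact h1.trans Finset.card_le_two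

theorem eq_five {k : ℕ} (hk : k ≤ 7) (h : ∑ i : Fin k, (3 - nb k i) = 7) : k = 5 := by
  interval_cases k
  · exact absurd h (by decide)
  · exact absurd h (by decide)
  · exact absurd h (by decide)
  · exact absurd h (by decide)
  · exact absurd h (by decide)
  · rfl
  · exact absurd h (by decide)
  · exact absurd h (by decide)

theorem card_pos : ∀ c : Fin 5, (Finset.univ.filter fun x => pos x = c).card = 3 - nb 5 c := by
  decide

theorem adj_spine : ∀ v w : Fin 12, v < 5 → w < 5 →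
      (((v : ℕ) + 1 = w ∨ (w : ℕ) + 1 = v) ↔ ((v ≠ 0 ∧ pK v = w) ∨ (w ≠ 0 ∧ pK w = v))) := by
  decide

theorem adj_leaf : ∀ (v : Fin 5) (y : Fin 7),
    (((v : ℕ) = pos y) ↔
      ((Fin.castLE (by norm_num) v : Fin 12) ≠ 0 ∧ pK (Fin.castLE (by norm_num) v) =
        Fin.natAdd 5 y) ∨ ((Fin.natAdd 5 y : Fin 12) ≠ 0 ∧ pK (Fin.natAdd 5 y) =
        (Fin.castLE (by norm_num) v : Fin 12))) := by
  decide

theorem adj_leaf_leaf : ∀ x y : Fin 7,
    ¬ (((Fin.natAdd 5 x : Fin 12) ≠ 0 ∧ pK (Fin.natAdd 5 x) = Fin.natAdd 5 y) ∨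
      ((Fin.natAdd 5 y : Fin 12) ≠ 0 ∧ pK (Fin.natAdd 5 y) = Fin.natAdd 5 x)) := by
  decide

theorem cat_P (T : LTree 7) (hT : T.IsCaterpillar) :
    ∃ ρ : Equiv.Perm (Fin 7), PP DK (Ls ρ) ⊆ T.P := by
  classical
  rcases hT with hT | ⟨k, ⟨φ⟩⟩
  · omega
  have := T.finite
  -- the spine
  let u : Fin k → T.V := fun i => (φ.symm i : T.V)
  have hu_mem : ∀ i, u i ∉ Set.range T.leaf := fun i => (φ.symm i).2
  have hu_inj : Function.Injective u := fun i j h => φ.symm.injective (Subtype.ext h)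
  have hu_surj : ∀ v, v ∉ Set.range T.leaf → ∃ i, u i = v := fun v hv =>
    ⟨φ ⟨v, hv⟩, by
      show ((φ.symm (φ ⟨v, hv⟩) : _) : T.V) = v
      rw [RelIso.symm_apply_apply]⟩
  have hu_adj : ∀ i j, T.G.Adj (u i) (u j) ↔ ((i : ℕ) + 1 = j ∨ (j : ℕ) + 1 = i) := by
    intro i j
    rw [← SimpleGraph.pathGraph_adj]
    exact φ.symm.map_rel_iff
  -- the neighbors of the leaves
  have hleaf : ∀ x, ∃ w, T.G.neighborSet (T.leaf x) = {w} := by
    intro x
    have h1 : T.leaf x ∈ Set.range T.leaf := ⟨x, rfl⟩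
    rw [T.range_leaf] at h1
    exact Set.ncard_eq_one.1 h1
  choose w hw using hleaf
  have hw' : ∀ x v, T.G.Adj (T.leaf x) v ↔ v = w x := by
    intro x v
    have h1 : v ∈ T.G.neighborSet (T.leaf x) ↔ v ∈ ({w x} : Set T.V) := by rw [hw]
    exact h1
  have hw_mem : ∀ x, w x ∉ Set.range T.leaf := by
    rintro x ⟨y, hy⟩
    have h1 : T.G.Adj (T.leaf x) (T.leaf y) := (hw' x _).2 hy
    have h2 : w y = T.leaf x := ((hw' y _).1 h1.symm).symm
    have h3 : ∀ a b : T.V, T.G.Adj a b → (a = T.leaf x ∨ a = T.leaf y) →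
        (b = T.leaf x ∨ b = T.leaf y) := by
      rintro a b hab (rfl | rfl)
      · right
        rw [(hw' x b).1 hab, hy]
      · left
        rw [(hw' y b).1 hab, h2]
    have h4 : ∀ a b : T.V, T.G.Walk a b → (a = T.leaf x ∨ a = T.leaf y) →
        (b = T.leaf x ∨ b = T.leaf y) := by
      intro a b p
      induction p with
      | nil => exact id
      | cons h _ ih => exact fun ha => ih (h3 _ _ h ha)
    obtain ⟨z, hz⟩ : ∃ z : Fin 7, z ≠ x ∧ z ≠ y := by
      have h5 : ∀ x y : Fin 7, ∃ z : Fin 7, z ≠ x ∧ z ≠ y := by decide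
      exact h5 x y
    obtain ⟨p⟩ := T.isTree.connected.preconnected (T.leaf x) (T.leaf z)
    rcases h4 _ _ p (Or.inl rfl) with h | h
    · exact hz.1 (T.leaf_inj h)
    · exact hz.2 (T.leaf_inj h)
  choose at' hat using fun x => hu_surj (w x) (hw_mem x)
  have hadj : ∀ x v, T.G.Adj (T.leaf x) v ↔ v = u (at' x) := by
    intro x v
    rw [hw', hat]
  -- the degrees of the spine vertices
  have hdeg : ∀ i : Fin k, nb k i + (Finset.univ.filter fun x => at' x = i).card = 3 := by
    intro i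
    have h1 : (T.G.neighborSet (u i)).ncard = 3 := by
      rcases T.deg (u i) with h | h
      · exfalso
        apply hu_mem i
        rw [T.range_leaf]
        exact h
      · exact h
    have h2 : T.G.neighborSet (u i) =
        (((Finset.univ.filter fun j : Fin k => (i : ℕ) + 1 = j ∨ (j : ℕ) + 1 = i).image u ∪
          (Finset.univ.filter fun x => at' x = i).image T.leaf : Finset T.V) : Set T.V) := by
      ext v
      rw [Finset.mem_coe, Finset.mem_union, Finset.mem_image, Finset.mem_image]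
      constructor
      · intro hv
        have hv' : T.G.Adj (u i) v := hv
        by_cases hvl : v ∈ Set.range T.leaf
        · obtain ⟨x, rfl⟩ := hvl
          right
          refine ⟨x, ?_, rfl⟩
          rw [Finset.mem_filter]
          exact ⟨Finset.mem_univ x, (hu_inj ((hadj x _).1 hv'.symm)).symm⟩
        · obtain ⟨j, rfl⟩ := hu_surj v hvl
          left
          refine ⟨j, ?_, rfl⟩
          rw [Finset.mem_filter]
          exact ⟨Finset.mem_univ j, (hu_adj i j).1 hv'⟩
      · rintro (⟨j, hj, rfl⟩ | ⟨x, hx, rfl⟩)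
        · exact (hu_adj i j).2 (Finset.mem_filter.1 hj).2
        · have h3 := (Finset.mem_filter.1 hx).2
          exact ((hadj x (u i)).2 (by rw [h3])).symm
    rw [h2, Set.ncard_coe_finset, Finset.card_union_of_disjoint, Finset.card_image_of_injective _
      hu_inj, Finset.card_image_of_injective _ T.leaf_inj] at h1
    · exact h1
    · rw [Finset.disjoint_left]
      intro v hv hv'
      obtain ⟨j, -, rfl⟩ := Finset.mem_image.1 hv
      obtain ⟨x, -, hx⟩ := Finset.mem_image.1 hv'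
      exact hu_mem j ⟨x, hx⟩
  have hk : k ≤ 7 := by
    have hs : Function.Surjective at' := by
      intro i
      have h1 := hdeg i
      have h2 := nb_le k i
      have h3 : 0 < (Finset.univ.filter fun x => at' x = i).card := by omega
      obtain ⟨x, hx⟩ := Finset.card_pos.1 h3
      exact ⟨x, (Finset.mem_filter.1 hx).2⟩
    have := Fintype.card_le_of_surjective _ hs
    rwa [Fintype.card_fin, Fintype.card_fin] at this
  have hsum : ∑ i : Fin k, (3 - nb k i) = 7 := by
    have h1 : (Finset.univ : Finset (Fin 7)).card =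
        ∑ i : Fin k, (Finset.univ.filter fun x => at' x = i).card :=
      Finset.card_eq_sum_card_fiberwise fun x _ => Finset.mem_coe.2 (Finset.mem_univ _)
    rw [Finset.card_univ, Fintype.card_fin] at h1
    rw [h1]
    refine Finset.sum_congr rfl fun i _ => ?_
    have := hdeg i
    omega
  obtain rfl : k = 5 := eq_five hk hsum
  -- the order of the leaves
  have hcard : ∀ c : Fin 5, Fintype.card {x // pos x = c} = Fintype.card {x // at' x = c} := by
    intro c
    rw [Fintype.card_subtype, Fintype.card_subtype, card_pos]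
    have := hdeg c
    omega
  let ρ : Equiv.Perm (Fin 7) := Equiv.ofFiberEquiv fun c => Fintype.equivOfCardEq (hcard c)
  have hρ : ∀ x, at' (ρ x) = pos x := fun x => Equiv.ofFiberEquiv_map _ x
  -- the isomorphism
  let e : Fin 12 → T.V := fun v =>
    if h : (v : ℕ) < 5 then u ⟨v, h⟩ else T.leaf (ρ ⟨v - 5, by omega⟩)
  have he1 : ∀ i : Fin 5, e (Fin.castLE (by norm_num) i) = u i := by
    intro i
    exact dif_pos i.2
  have he2 : ∀ y : Fin 7, e (Fin.natAdd 5 y) = T.leaf (ρ y) := by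
    intro y
    have h1 : ¬ ((Fin.natAdd 5 y : Fin 12) : ℕ) < 5 := by
      show ¬ (5 + (y : ℕ)) < 5
      omega
    refine (dif_neg h1).trans ?_
    congr 2
    apply Fin.ext
    show 5 + (y : ℕ) - 5 = y
    omega
  have hcases : ∀ v : Fin 12, (∃ i : Fin 5, v = Fin.castLE (by norm_num) i) ∨
      ∃ y : Fin 7, v = Fin.natAdd 5 y := by
    intro v
    by_cases h : (v : ℕ) < 5
    · exact Or.inl ⟨⟨v, h⟩, rfl⟩
    · refine Or.inr ⟨⟨v - 5, by omega⟩, Fin.ext ?_⟩
      show (v : ℕ) = 5 + (v - 5)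
      omega
  have he_inj : Function.Injective e := by
    intro a b hab
    rcases hcases a with ⟨i, rfl⟩ | ⟨y, rfl⟩ <;> rcases hcases b with ⟨j, rfl⟩ | ⟨z, rfl⟩
    · rw [he1, he1] at hab
      rw [hu_inj hab]
    · rw [he1, he2] at hab
      exact absurd ⟨_, hab.symm⟩ (hu_mem i)
    · rw [he1, he2] at hab
      exact absurd ⟨_, hab⟩ (hu_mem j)
    · rw [he2, he2] at hab
      rw [ρ.injective (T.leaf_inj hab)]
  have he_surj : Function.Surjective e := by
    intro v
    by_cases hv : v ∈ Set.range T.leaf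
    · obtain ⟨x, rfl⟩ := hv
      exact ⟨Fin.natAdd 5 (ρ.symm x), by rw [he2, Equiv.apply_symm_apply]⟩
    · obtain ⟨i, rfl⟩ := hu_surj v hv
      exact ⟨_, he1 i⟩
  have he_adj : ∀ a b, T.G.Adj (e a) (e b) ↔ (parG pK hpK).Adj a b := by
    intro a b
    rcases hcases a with ⟨i, rfl⟩ | ⟨y, rfl⟩ <;> rcases hcases b with ⟨j, rfl⟩ | ⟨z, rfl⟩
    · rw [he1, he1, hu_adj]
      exact adj_spine (Fin.castLE (by norm_num) i) (Fin.castLE (by norm_num) j) i.2 j.2
    · rw [he1, he2, SimpleGraph.adj_comm, hadj, hρ]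
      refine Iff.trans ?_ (adj_leaf i z)
      exact ⟨fun h => by rw [hu_inj h], fun h => by rw [Fin.ext h]⟩
    · rw [he1, he2, hadj, hρ, SimpleGraph.adj_comm]
      refine Iff.trans ?_ (adj_leaf j y)
      exact ⟨fun h => by rw [hu_inj h], fun h => by rw [Fin.ext h]⟩
    · rw [he2, he2]
      refine ⟨fun h => ?_, fun h => absurd h (adj_leaf_leaf y z)⟩
      exact absurd ⟨_, (hadj _ _).1 h⟩ (hu_mem (at' (ρ y)))
  refine ⟨ρ, ?_⟩
  rintro r ⟨A, rfl⟩
  let D' : Set (Sym2 (Fin 12)) := {s | ∃ v, v ≠ 0 ∧ v ∈ A ∧ s = s(v, pK v)}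
  refine ⟨Sym2.map e '' D', ?_, ?_⟩
  · rintro _ ⟨_, ⟨v, hv, -, rfl⟩, rfl⟩
    rw [Sym2.map_mk, SimpleGraph.mem_edgeSet]
    exact (he_adj _ _).2 (Or.inl ⟨hv, rfl⟩)
  · have hmem : ∀ a b, s(e a, e b) ∈ Sym2.map e '' D' ↔ s(a, b) ∈ D' := by
      intro a b
      have h1 : s(e a, e b) = Sym2.map e s(a, b) := rfl
      rw [h1]
      exact (Sym2.map.injective he_inj).mem_set_image
    let ψ : ((parG pK hpK).deleteEdges D') ≃g (T.G.deleteEdges (Sym2.map e '' D')) :=
      { Equiv.ofBijective e ⟨he_inj, he_surj⟩ with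
        map_rel_iff' := by
          intro a b
          show (T.G.deleteEdges (Sym2.map e '' D')).Adj (e a) (e b) ↔
            ((parG pK hpK).deleteEdges D').Adj a b
          rw [SimpleGraph.deleteEdges_adj, SimpleGraph.deleteEdges_adj, he_adj, hmem] }
    ext i j
    show (∀ v, v ≠ 0 → v ∈ A → DK v (Ls ρ i) = DK v (Ls ρ j)) ↔
      (T.G.deleteEdges (Sym2.map e '' D')).Reachable (T.leaf i) (T.leaf j)
    have hl : ∀ i, T.leaf i = ψ (Ls ρ i) := by
      intro i
      show T.leaf i = e (Fin.natAdd 5 (ρ.symm i))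
      rw [he2, Equiv.apply_symm_apply]
    rw [hl, hl, SimpleGraph.Iso.reachable_iff, reach_iff hpK descK]
    refine forall_congr' fun v => forall_congr' fun hv => ?_
    have h1 : v ∈ A ↔ s(v, pK v) ∈ D' := by
      constructor
      · intro h
        exact ⟨v, hv, h, rfl⟩
      · rintro ⟨v', hv', hA, he⟩
        rwa [edge_inj hpK hv hv' he]
    rw [h1]

end Pool.Agent.R709.TR
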