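import Pool.Agent.R709.TR.Codes

/-!
The upper bounds.
-/

set_option autoImplicit false

namespace Pool.Agent.R709.TR

/-- closure check -/
def clB : Bool := msK.all fun m => CK.all fun c => memB (Nat.lor m c) CK

theorem clB_eq : clB = true := by decide +kernel

theorem mK_mem : ∀ v : Fin 12, v ≠ 0 → mK v ∈ msK := by decide +kernel
theorem mS_mem : ∀ v : Fin 12, v ≠ 0 → mS v ∈ msS := by decide +kernel
theorem mF_mem : ∀ v : Fin 12, v ≠ 0 → mF v ∈ msF := by decide +kernel

theorem CK_closed : ∀ c ∈ CK, ∀ v : Fin 12, v ≠ 0 → mK v ||| c ∈ CK := by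
  intro c hc v hv
  have h := clB_eq
  unfold clB at h
  rw [List.all_eq_true] at h
  have h1 := h (mK v) (mK_mem v hv)
  rw [List.all_eq_true] at h1
  exact mem_of_memB (h1 c hc)

theorem CK_lt : ∀ c ∈ CK, c < 2 ^ 49 := by decide +kernel
theorem msS_lt : ∀ c ∈ msS, c < 2 ^ 49 := by decide +kernel
theorem msF_lt : ∀ c ∈ msF, c < 2 ^ 49 := by decide +kernel

theorem CK_zero : 0 ∈ CK := by decide +kernel

theorem countKF : (CK.filter (fixB msF)).length ≤ 125 := by decide +kernel
theorem countKS : (CK.filter (fixB msS)).length ≤ 126 := by decide +kernel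

theorem ncard_KF : (PP DK L₀ ∩ PP DF L₀).ncard ≤ 125 :=
  ncard_le masksK masksF CK_zero CK_closed mF_mem msF_lt CK_lt countKF

theorem ncard_KS : (PP DK L₀ ∩ PP DK L₁).ncard ≤ 126 :=
  ncard_le masksK masksS CK_zero CK_closed mS_mem msS_lt CK_lt countKS

end Pool.Agent.R709.TR
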