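import Pool.Agent.R709.TR.Codes

/-!
The check for the lower bound.
-/

set_option autoImplicit false

namespace Pool.Agent.R709.TR

/-- `m` if it is contained in `c` -/
def sel (m c : ℕ) : ℕ := bif Nat.beq (Nat.land m c) m then m else 0

/-- the candidate is a partition of the caterpillar with the internal masks `m1`, `m2`, `m3`,
`m4` -/
def okc (m1 m2 m3 m4 : ℕ) (x : ℕ × ℕ) : Bool :=
  Nat.beq (Nat.lor (Nat.lor (Nat.lor (Nat.lor x.1 (sel m1 x.2)) (sel m2 x.2)) (sel m3 x.2))
    (sel m4 x.2)) x.2

/-- at least `k` elements of the list satisfy `p` -/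
def atLeast (p : ℕ × ℕ → Bool) : List (ℕ × ℕ) → ℕ → Bool
  | _, 0 => true
  | [], _ + 1 => false
  | x :: l, k + 1 => bif p x then atLeast p l k else atLeast p l (k + 1)

/-- the check for one caterpillar -/
def good (m1 m2 m3 m4 : ℕ) : Bool := atLeast (okc m1 m2 m3 m4) extL 5

/-- the check for all caterpillars -/
def checkAll (l : List ℕ) : Bool :=
  l.all fun a => pendL.all fun b => bif Nat.blt a b then
    pendL.all fun c => bif Nat.beq c a || Nat.beq c b then true else
      pendL.all fun d => bif Nat.beq d a || Nat.beq d b || Nat.beq d c then true else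
        pendL.all fun e => bif Nat.beq e a || Nat.beq e b || Nat.beq e c || Nat.beq e d then true
          else good (Nat.xor a b) (Nat.xor (Nat.xor a b) c) (Nat.xor (Nat.xor (Nat.xor a b) c) d)
            (Nat.xor (Nat.xor (Nat.xor (Nat.xor a b) c) d) e)
  else true

theorem checkA : checkAll pendL = true := by decide +kernel

end Pool.Agent.R709.TR
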