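import Pool.Agent.R709.TR.Data

/-!
Codes of partitions; upper and lower bounds for the number of common partitions.
-/

set_option autoImplicit false

namespace Pool.Agent.R709.TR

/-- the partition of the labels given by the splits of the vertices `v ∈ A`, where `D` is the
descendant relation and `L` gives the positions of the leaves -/
def relOf (D : Fin 12 → Fin 12 → Bool) (L : Fin 7 → Fin 12) (A : Set (Fin 12)) :
    Setoid (Fin 7) where
  r i j := ∀ v, v ≠ 0 → v ∈ A → D v (L i) = D v (L j)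
  iseqv := ⟨fun _ _ _ _ => rfl, fun h v hv hA => (h v hv hA).symm,
    fun h h' v hv hA => (h v hv hA).trans (h' v hv hA)⟩

/-- the partitions given by sets of splits -/
def PP (D : Fin 12 → Fin 12 → Bool) (L : Fin 7 → Fin 12) : Set (Setoid (Fin 7)) :=
  Set.range (relOf D L)

/-- `c` is the code of the partition `r`: the bit `7 i + j` of `c` is `1` if `i` and `j` are in
different classes -/
def IsCode (c : ℕ) (r : Setoid (Fin 7)) : Prop :=
  ∀ i j : Fin 7, r i j ↔ c.testBit (7 * i + j) = false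

theorem IsCode.unique {c : ℕ} {r r' : Setoid (Fin 7)} (h : IsCode c r) (h' : IsCode c r') :
    r = r' := by
  ext i j
  exact (h i j).trans (h' i j).symm

theorem IsCode.inj {c c' : ℕ} {r : Setoid (Fin 7)} (h : IsCode c r) (h' : IsCode c' r)
    (hc : c < 2 ^ 49) (hc' : c' < 2 ^ 49) : c = c' := by
  apply Nat.eq_of_testBit_eq
  intro k
  by_cases hk : k < 49
  · have h1 := (h ⟨k / 7, by omega⟩ ⟨k % 7, by omega⟩).symm.trans
      (h' ⟨k / 7, by omega⟩ ⟨k % 7, by omega⟩)
    have h2 : 7 * (k / 7) + k % 7 = k := Nat.div_add_mod k 7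
    simp only [h2] at h1
    cases h3 : c.testBit k <;> cases h4 : c'.testBit k
    · rfl
    · rw [h3, h4] at h1
      exact absurd (h1.1 rfl) (by simp)
    · rw [h3, h4] at h1
      exact absurd (h1.2 rfl) (by simp)
    · rfl
  · have h1 : 2 ^ 49 ≤ 2 ^ k := Nat.pow_le_pow_right (by norm_num) (by omega)
    rw [Nat.testBit_lt_two_pow (hc.trans_le h1), Nat.testBit_lt_two_pow (hc'.trans_le h1)]

/-- `mk v` is the code of the split of `v` -/
def Masks (D : Fin 12 → Fin 12 → Bool) (L : Fin 7 → Fin 12) (mk : Fin 12 → ℕ) : Prop :=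
  ∀ v, v ≠ 0 → ∀ i j : Fin 7, (mk v).testBit (7 * i + j) = (D v (L i) != D v (L j))

theorem isCode_of {D : Fin 12 → Fin 12 → Bool} {L : Fin 7 → Fin 12} {mk : Fin 12 → ℕ}
    (hm : Masks D L mk) {A : Set (Fin 12)} {c : ℕ}
    (hc : ∀ k, c.testBit k = true ↔ ∃ v, v ≠ 0 ∧ v ∈ A ∧ (mk v).testBit k = true) :
    IsCode c (relOf D L A) := by
  intro i j
  constructor
  · intro h
    by_contra hcon
    rw [Bool.not_eq_false, hc] at hcon
    obtain ⟨v, hv, hA, h1⟩ := hcon
    rw [hm v hv, h v hv hA] at h1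
    simp at h1
  · intro h v hv hA
    by_contra hcon
    have h1 : c.testBit (7 * i + j) = true := (hc _).2 ⟨v, hv, hA, by
      rw [hm v hv]
      simpa using hcon⟩
    rw [h1] at h
    exact Bool.noConfusion h

theorem exists_code {D : Fin 12 → Fin 12 → Bool} {L : Fin 7 → Fin 12} {mk : Fin 12 → ℕ}
    (hm : Masks D L mk) {C : List ℕ} (h0 : 0 ∈ C)
    (hC : ∀ c ∈ C, ∀ v : Fin 12, v ≠ 0 → mk v ||| c ∈ C) {r : Setoid (Fin 7)} (hr : r ∈ PP D L) :
    ∃ c ∈ C, IsCode c r := by
  classical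
  obtain ⟨A, rfl⟩ := hr
  have key : ∀ l : List (Fin 12), ∃ c ∈ C, ∀ k, c.testBit k = true ↔
      ∃ v ∈ l, v ≠ 0 ∧ v ∈ A ∧ (mk v).testBit k = true := by
    intro l
    induction l with
    | nil => exact ⟨0, h0, fun k => by simp⟩
    | cons w l ih =>
      obtain ⟨c, hc, h⟩ := ih
      by_cases hw : w ≠ 0 ∧ w ∈ A
      · refine ⟨mk w ||| c, hC c hc w hw.1, fun k => ?_⟩
        rw [Nat.testBit_lor, Bool.or_eq_true, h]
        constructor
        · rintro (h1 | ⟨v, hv, h1⟩)
          · exact ⟨w, List.mem_cons_self, hw.1, hw.2, h1⟩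
          · exact ⟨v, List.mem_cons_of_mem _ hv, h1⟩
        · rintro ⟨v, hv, h1⟩
          rcases List.mem_cons.1 hv with rfl | hv
          · exact Or.inl h1.2.2
          · exact Or.inr ⟨v, hv, h1⟩
      · refine ⟨c, hc, fun k => ?_⟩
        rw [h]
        constructor
        · rintro ⟨v, hv, h1⟩
          exact ⟨v, List.mem_cons_of_mem _ hv, h1⟩
        · rintro ⟨v, hv, h1⟩
          rcases List.mem_cons.1 hv with rfl | hv
          · exact absurd ⟨h1.1, h1.2.1⟩ hw
          · exact ⟨v, hv, h1⟩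
  obtain ⟨c, hc, h⟩ := key (List.finRange 12)
  refine ⟨c, hc, isCode_of hm fun k => ?_⟩
  rw [h]
  constructor
  · rintro ⟨v, -, h1⟩
    exact ⟨v, h1⟩
  · rintro ⟨v, h1⟩
    exact ⟨v, List.mem_finRange v, h1⟩

/-- `c` is the union of the masks contained in `c` -/
def fixB (ms : List ℕ) (c : ℕ) : Bool :=
  Nat.beq (ms.foldr (fun m acc => bif Nat.beq (Nat.land m c) m then Nat.lor m acc else acc) 0) c

theorem sub_iff {m c : ℕ} : Nat.beq (Nat.land m c) m = true ↔
    ∀ k, m.testBit k = true → c.testBit k = true := by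
  rw [Nat.beq_eq]
  constructor
  · intro h k hk
    have h1 : (m &&& c).testBit k = true := by
      show (Nat.land m c).testBit k = true
      rw [h]
      exact hk
    rw [Nat.testBit_land, Bool.and_eq_true] at h1
    exact h1.2
  · intro h
    apply Nat.eq_of_testBit_eq
    intro k
    show (m &&& c).testBit k = m.testBit k
    rw [Nat.testBit_land]
    cases h1 : m.testBit k
    · rfl
    · rw [h k h1]
      rfl

theorem testBit_fold (ms : List ℕ) (c k : ℕ) :
    (ms.foldr (fun m acc => bif Nat.beq (Nat.land m c) m then Nat.lor m acc else acc)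
      0).testBit k = true ↔
      ∃ m ∈ ms, Nat.beq (Nat.land m c) m = true ∧ m.testBit k = true := by
  induction ms with
  | nil => simp
  | cons m ms ih =>
    rw [List.foldr_cons]
    cases h : Nat.beq (Nat.land m c) m
    · rw [cond_false, ih]
      constructor
      · rintro ⟨m', hm', h1⟩
        exact ⟨m', List.mem_cons_of_mem _ hm', h1⟩
      · rintro ⟨m', hm', h1, h2⟩
        rcases List.mem_cons.1 hm' with rfl | hm'
        · rw [h] at h1
          exact Bool.noConfusion h1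
        · exact ⟨m', hm', h1, h2⟩
    · rw [cond_true]
      have h0 : ∀ a b : ℕ, (Nat.lor a b).testBit k = (a.testBit k || b.testBit k) := fun a b =>
        Nat.testBit_lor a b k
      rw [h0, Bool.or_eq_true, ih]
      constructor
      · rintro (h1 | ⟨m', hm', h1⟩)
        · exact ⟨m, List.mem_cons_self, h, h1⟩
        · exact ⟨m', List.mem_cons_of_mem _ hm', h1⟩
      · rintro ⟨m', hm', h1, h2⟩
        rcases List.mem_cons.1 hm' with rfl | hm'
        · exact Or.inl h2
        · exact Or.inr ⟨m', hm', h1, h2⟩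

theorem fixB_iff {ms : List ℕ} {c : ℕ} : fixB ms c = true ↔
    ∀ k, c.testBit k = true → ∃ m ∈ ms, Nat.beq (Nat.land m c) m = true ∧ m.testBit k = true := by
  unfold fixB
  rw [Nat.beq_eq]
  constructor
  · intro h k hk
    rw [← testBit_fold, h]
    exact hk
  · intro h
    apply Nat.eq_of_testBit_eq
    intro k
    apply Bool.eq_iff_iff.2
    rw [testBit_fold]
    constructor
    · rintro ⟨m, -, h1, h2⟩
      exact sub_iff.1 h1 k h2
    · exact h k

theorem fix_of_code {D : Fin 12 → Fin 12 → Bool} {L : Fin 7 → Fin 12} {mk : Fin 12 → ℕ}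
    (hm : Masks D L mk) {ms : List ℕ} (hms : ∀ v : Fin 12, v ≠ 0 → mk v ∈ ms)
    (hlt : ∀ m ∈ ms, m < 2 ^ 49)
    {r : Setoid (Fin 7)} (hr : r ∈ PP D L) {c : ℕ} (hc : IsCode c r) (hc49 : c < 2 ^ 49) :
    fixB ms c = true := by
  obtain ⟨A, rfl⟩ := hr
  have h49 : ∀ {x k : ℕ}, x < 2 ^ 49 → x.testBit k = true → k < 49 := by
    intro x k hx hk
    by_contra hcon
    have h1 : 2 ^ 49 ≤ 2 ^ k := Nat.pow_le_pow_right (by norm_num) (by omega)
    rw [Nat.testBit_lt_two_pow (hx.trans_le h1)] at hk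
    exact Bool.noConfusion hk
  have hbit : ∀ v, v ≠ 0 → v ∈ A → ∀ k, (mk v).testBit k = true → c.testBit k = true := by
    intro v hv hA k hk
    have hk49 := h49 (hlt _ (hms v hv)) hk
    have h2 : 7 * (k / 7) + k % 7 = k := Nat.div_add_mod k 7
    by_contra hcon
    rw [Bool.not_eq_true] at hcon
    have h3 := (hc ⟨k / 7, by omega⟩ ⟨k % 7, by omega⟩).2 (by simpa only [h2] using hcon) v hv hA
    have h4 := hm v hv ⟨k / 7, by omega⟩ ⟨k % 7, by omega⟩
    simp only [h2] at h4
    rw [h4, h3] at hk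
    simp at hk
  rw [fixB_iff]
  intro k hk
  have hk49 := h49 hc49 hk
  have h2 : 7 * (k / 7) + k % 7 = k := Nat.div_add_mod k 7
  have h3 : ¬ (relOf D L A) ⟨k / 7, by omega⟩ ⟨k % 7, by omega⟩ := by
    rw [hc]
    simp only [h2]
    rw [hk]
    simp
  have h4 : ∃ v, v ≠ 0 ∧ v ∈ A ∧ D v (L ⟨k / 7, by omega⟩) ≠ D v (L ⟨k % 7, by omega⟩) := by
    by_contra hcon
    push Not at hcon
    exact h3 fun v hv hA => hcon v hv hA
  obtain ⟨v, hv, hA, h5⟩ := h4
  have h6 := hm v hv ⟨k / 7, by omega⟩ ⟨k % 7, by omega⟩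
  simp only [h2] at h6
  refine ⟨mk v, hms v hv, sub_iff.2 (hbit v hv hA), ?_⟩
  rw [h6]
  simpa using h5

/-- upper bound for the number of common partitions -/
theorem ncard_le {D D' : Fin 12 → Fin 12 → Bool} {L L' : Fin 7 → Fin 12} {mk mk' : Fin 12 → ℕ}
    (hm : Masks D L mk) (hm' : Masks D' L' mk') {C : List ℕ} (h0 : 0 ∈ C)
    (hC : ∀ c ∈ C, ∀ v : Fin 12, v ≠ 0 → mk v ||| c ∈ C)
    {ms : List ℕ} (hms : ∀ v : Fin 12, v ≠ 0 → mk' v ∈ ms) (hmlt : ∀ m ∈ ms, m < 2 ^ 49)
    (hlt : ∀ c ∈ C, c < 2 ^ 49) {K : ℕ}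
    (hK : (C.filter (fixB ms)).length ≤ K) : (PP D L ∩ PP D' L').ncard ≤ K := by
  classical
  have h1 : ∀ r : Setoid (Fin 7), ∃ c : ℕ, r ∈ PP D L ∩ PP D' L' →
      c ∈ (C.filter (fixB ms)).toFinset ∧ IsCode c r := by
    intro r
    by_cases hr : r ∈ PP D L ∩ PP D' L'
    · obtain ⟨c, hc, h1⟩ := exists_code hm h0 hC hr.1
      refine ⟨c, fun _ => ⟨?_, h1⟩⟩
      rw [List.mem_toFinset, List.mem_filter]
      exact ⟨hc, fix_of_code hm' hms hmlt hr.2 h1 (hlt c hc)⟩
    · exact ⟨0, fun h => absurd h hr⟩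
  choose f hf using h1
  have h2 := Set.ncard_le_ncard_of_injOn (s := PP D L ∩ PP D' L')
    (t := (((C.filter (fixB ms)).toFinset : Finset ℕ) : Set ℕ)) f
    (fun r hr => (hf r hr).1) (fun r hr r' hr' he => by
      have h3 := (hf r hr).2
      rw [he] at h3
      exact h3.unique (hf r' hr').2)
  rw [Set.ncard_coe_finset] at h2
  exact h2.trans ((List.toFinset_card_le _).trans hK)

instance : Finite (Setoid (Fin 7)) :=
  Finite.of_injective (fun (r : Setoid (Fin 7)) (i j : Fin 7) => r i j) fun r r' h => by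
    ext i j
    exact iff_of_eq (congrFun (congrFun h i) j)

/-- lower bound for the number of common partitions -/
theorem le_ncard {P P' : Set (Setoid (Fin 7))} {l : List ℕ} (hl : l.Nodup)
    (hlt : ∀ c ∈ l, c < 2 ^ 49) (h : ∀ c ∈ l, (∃ r ∈ P, IsCode c r) ∧ ∃ r ∈ P', IsCode c r) :
    l.length ≤ (P ∩ P').ncard := by
  classical
  have h1 : ∀ c : ℕ, ∃ r : Setoid (Fin 7), c ∈ l → r ∈ P ∩ P' ∧ IsCode c r := by
    intro c
    by_cases hc : c ∈ l
    · obtain ⟨⟨r, hr, h1⟩, ⟨r', hr', h2⟩⟩ := h c hc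
      have h3 : r = r' := h1.unique h2
      subst h3
      exact ⟨r, fun _ => ⟨⟨hr, hr'⟩, h1⟩⟩
    · exact ⟨⊤, fun h => absurd h hc⟩
  choose f hf using h1
  have h2 := Set.ncard_le_ncard_of_injOn (s := ((l.toFinset : Finset ℕ) : Set ℕ))
    (t := P ∩ P') f (fun c hc => (hf c (List.mem_toFinset.1 hc)).1) (fun c hc c' hc' he => by
      have hc1 := List.mem_toFinset.1 hc
      have hc2 := List.mem_toFinset.1 hc'
      have h3 := (hf c hc1).2
      have he' : f c = f c' := he
      rw [he'] at h3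
      exact h3.inj (hf c' hc2).2 (hlt c hc1) (hlt c' hc2))
  rw [Set.ncard_coe_finset, List.toFinset_card_of_nodup hl] at h2
  exact h2

/-! ### Checks -/

/-- positions of the leaves in the trees of the data file -/
def Ls (σ : Equiv.Perm (Fin 7)) (x : Fin 7) : Fin 12 := Fin.natAdd 5 (σ.symm x)

/-- positions of the leaves for the identity -/
def L₀ (x : Fin 7) : Fin 12 := Fin.natAdd 5 x

/-- positions of the leaves of the relabeled caterpillar -/
def L₁ : Fin 7 → Fin 12 := ![5, 10, 7, 9, 8, 6, 11]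

theorem masksK : Masks DK L₀ mK := by
  unfold Masks
  decide +kernel

theorem masksF : Masks DF L₀ mF := by
  unfold Masks
  decide +kernel

theorem masksS : Masks DK L₁ mS := by
  unfold Masks
  decide +kernel

/-- membership -/
def memB (c : ℕ) : List ℕ → Bool
  | [] => false
  | a :: l => bif Nat.beq a c then true else memB c l

theorem mem_of_memB {c : ℕ} : ∀ {l : List ℕ}, memB c l = true → c ∈ l
  | [], h => Bool.noConfusion h
  | a :: l, h => by
    unfold memB at h
    cases h1 : Nat.beq a c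
    · rw [h1, cond_false] at h
      exact List.mem_cons_of_mem _ (mem_of_memB h)
    · have h2 := (Nat.beq_eq ▸ h1 : a = c)
      rw [h2]
      exact List.mem_cons_self

end Pool.Agent.R709.TR
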