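import Mathlib

/-!
Semilabeled binary trees, their convex characters, caterpillars.
-/

set_option autoImplicit false

namespace Pool.Agent.R709.TR

/-- A semilabeled binary tree of size `n`: a finite tree in which every vertex has degree `1` or
`3`, with exactly `n` vertices of degree `1` (the leaves), labeled bijectively by `Fin n`. -/
structure LTree (n : ℕ) where
  /-- the vertices -/
  V : Type
  finite : Finite V
  /-- the tree -/
  G : SimpleGraph V
  isTree : G.IsTree
  deg : ∀ v, (G.neighborSet v).ncard = 1 ∨ (G.neighborSet v).ncard = 3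
  /-- the leaf with a given label -/
  leaf : Fin n → V
  leaf_inj : Function.Injective leaf
  range_leaf : Set.range leaf = {v | (G.neighborSet v).ncard = 1}

/-- The partition of the set of labels obtained by deleting the set `D` of edges: two labels are in
the same class if their leaves are in the same connected component. (Partitions are given by their
equivalence relations.) -/
def LTree.rel {n : ℕ} (T : LTree n) (D : Set (Sym2 T.V)) : Setoid (Fin n) where
  r i j := (T.G.deleteEdges D).Reachable (T.leaf i) (T.leaf j)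
  iseqv := ⟨fun _ => SimpleGraph.Reachable.refl _, fun h => h.symm, fun h h' => h.trans h'⟩

/-- `𝔓(T)`: the set of all partitions of the set of labels obtained by deleting a set of edges. -/
def LTree.P {n : ℕ} (T : LTree n) : Set (Setoid (Fin n)) :=
  {r | ∃ D : Set (Sym2 T.V), D ⊆ T.G.edgeSet ∧ r = T.rel D}

/-- `T` is a caterpillar: deleting all leaves (and their edges) leaves a path. For `n ≤ 2` every
tree counts as a caterpillar. -/
def LTree.IsCaterpillar {n : ℕ} (T : LTree n) : Prop :=
  n ≤ 2 ∨ ∃ k : ℕ, Nonempty (T.G.induce {v | v ∉ Set.range T.leaf} ≃g SimpleGraph.pathGraph k)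

/-- `s_n = min |𝔓(T) ∩ 𝔓(F)|` over all pairs of semilabeled binary trees of size `n` -/
noncomputable def sMin (n : ℕ) : ℕ :=
  sInf {k | ∃ T F : LTree n, k = (T.P ∩ F.P).ncard}

/-- `c_n = min |𝔓(T) ∩ 𝔓(F)|` over all pairs of caterpillars of size `n` -/
noncomputable def cMin (n : ℕ) : ℕ :=
  sInf {k | ∃ T F : LTree n, T.IsCaterpillar ∧ F.IsCaterpillar ∧ k = (T.P ∩ F.P).ncard}

/-! ### Trees given by a parent function -/

section par
variable {N : ℕ} (p : Fin (N + 1) → Fin (N + 1))

/-- the graph with the edges `{v, p v}`, `v ≠ 0` -/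
def parG (hp : ∀ v, v ≠ 0 → p v < v) : SimpleGraph (Fin (N + 1)) where
  Adj u v := (u ≠ 0 ∧ p u = v) ∨ (v ≠ 0 ∧ p v = u)
  symm := ⟨fun _ _ h => h.symm⟩
  loopless := ⟨fun u h => by
    rcases h with ⟨h1, h2⟩ | ⟨h1, h2⟩ <;> exact (hp u h1).ne h2⟩

variable {p} (hp : ∀ v, v ≠ 0 → p v < v) {D : Fin (N + 1) → Fin (N + 1) → Bool}

/-- `D v x` says that `x` is a descendant of `v` -/
structure IsDesc (p : Fin (N + 1) → Fin (N + 1)) (D : Fin (N + 1) → Fin (N + 1) → Bool) :
    Prop where
  self : ∀ v, D v v = true
  lt : ∀ v x, x < v → D v x = false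
  par : ∀ v x, x ≠ 0 → x ≠ v → D v x = D v (p x)

theorem reach_iff (hD : IsDesc p D) (E : Set (Sym2 (Fin (N + 1)))) (i j : Fin (N + 1)) :
    ((parG p hp).deleteEdges E).Reachable i j ↔
      ∀ v, v ≠ 0 → s(v, p v) ∈ E → D v i = D v j := by
  constructor
  · rintro ⟨w⟩ v hv hvE
    induction w with
    | nil => rfl
    | @cons a b c h w ih =>
      refine Eq.trans ?_ ih
      rw [SimpleGraph.deleteEdges_adj] at h
      obtain ⟨h1, h2⟩ := h
      rcases h1 with ⟨h3, rfl⟩ | ⟨h3, rfl⟩
      · exact hD.par v a h3 (fun h => h2 (h ▸ hvE))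
      · refine (hD.par v b h3 (fun h => h2 ?_)).symm
        rw [Sym2.eq_swap]
        exact h ▸ hvE
  · intro h
    have key : ∀ n : ℕ, ∀ i j : Fin (N + 1), (i : ℕ) + j ≤ n →
        (∀ v, v ≠ 0 → s(v, p v) ∈ E → D v i = D v j) →
        ((parG p hp).deleteEdges E).Reachable i j := by
      intro n
      induction n with
      | zero =>
        intro i j hij _
        have h1 : i = j := Fin.ext (by omega)
        rw [h1]
      | succ n ih =>
        have main : ∀ i j : Fin (N + 1), j < i → (i : ℕ) + j ≤ n + 1 →
            (∀ v, v ≠ 0 → s(v, p v) ∈ E → D v i = D v j) →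
            ((parG p hp).deleteEdges E).Reachable i j := by
          intro i j hlt hij h
          have hi : i ≠ 0 := by
            intro h0
            rw [h0] at hlt
            exact absurd hlt (Fin.not_lt_zero j)
          have hE : s(i, p i) ∉ E := by
            intro hE
            have h1 := h i hi hE
            rw [hD.self, hD.lt i j hlt] at h1
            exact Bool.noConfusion h1
          have hadj : ((parG p hp).deleteEdges E).Adj i (p i) := by
            rw [SimpleGraph.deleteEdges_adj]
            exact ⟨Or.inl ⟨hi, rfl⟩, hE⟩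
          have hpi : ((p i : Fin (N + 1)) : ℕ) < i := hp i hi
          refine hadj.reachable.trans (ih (p i) j (by omega) fun v hv hvE => ?_)
          have hne : i ≠ v := fun h' => hE (h' ▸ hvE)
          rw [← hD.par v i hi hne]
          exact h v hv hvE
        intro i j hij h
        rcases lt_trichotomy i j with h1 | h1 | h1
        · exact (main j i h1 (by omega) fun v hv hvE => (h v hv hvE).symm).symm
        · rw [h1]
        · exact main i j h1 hij h
    exact key _ i j le_rfl h

theorem parG_isTree (hD : IsDesc p D) : (parG p hp).IsTree := by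
  constructor
  · refine ⟨fun i j => ?_⟩
    have h := (reach_iff hp hD ∅ i j).2 fun v _ hv => absurd hv (Set.notMem_empty _)
    rwa [SimpleGraph.deleteEdges_empty] at h
  · rw [SimpleGraph.isAcyclic_iff_forall_adj_isBridge]
    intro a b hab
    rw [SimpleGraph.isBridge_iff]
    intro h
    rw [reach_iff hp hD] at h
    rcases hab with ⟨h3, rfl⟩ | ⟨h3, rfl⟩
    · have h2 := h a h3 rfl
      rw [hD.self, hD.lt a (p a) (hp a h3)] at h2
      exact Bool.noConfusion h2
    · have h2 := h b h3 Sym2.eq_swap
      rw [hD.self, hD.lt b (p b) (hp b h3)] at h2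
      exact Bool.noConfusion h2

theorem edge_inj {v w : Fin (N + 1)} (hp : ∀ v, v ≠ 0 → p v < v) (hv : v ≠ 0) (hw : w ≠ 0)
    (h : s(v, p v) = s(w, p w)) : v = w := by
  rw [Sym2.eq_iff] at h
  rcases h with h | h
  · exact h.1
  · have h1 := hp v hv
    have h2 := hp w hw
    rw [← h.1] at h2
    rw [h.2] at h1
    exact absurd h1 (lt_asymm h2)

end par

end Pool.Agent.R709.TR
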