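import Pool.Agent.R709.TR.Check1
import Pool.Agent.R709.TR.Check2

/-!
The lower bound for the caterpillars.
-/

set_option autoImplicit false

namespace Pool.Agent.R709.TR

theorem le_length_of_atLeast (p : ℕ × ℕ → Bool) : ∀ (l : List (ℕ × ℕ)) (k : ℕ),
    atLeast p l k = true → k ≤ (l.filter p).length
  | _, 0, _ => Nat.zero_le _
  | [], k + 1, h => by
    unfold atLeast at h
    exact Bool.noConfusion h
  | x :: l, k + 1, h => by
    unfold atLeast at h
    cases h1 : p x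
    · rw [h1, cond_false] at h
      rw [List.filter_cons_of_neg (by rw [h1]; simp)]
      exact le_length_of_atLeast p l (k + 1) h
    · rw [h1, cond_true] at h
      rw [List.filter_cons_of_pos h1, List.length_cons]
      exact Nat.succ_le_succ (le_length_of_atLeast p l k h)

theorem good_of_lt {a b c d e : ℕ} (ha : a ∈ pendL) (hb : b ∈ pendL) (hc : c ∈ pendL)
    (hd : d ∈ pendL) (he : e ∈ pendL) (hab : a < b) (hca : c ≠ a) (hcb : c ≠ b) (hda : d ≠ a)
    (hdb : d ≠ b) (hdc : d ≠ c) (hea : e ≠ a) (heb : e ≠ b) (hec : e ≠ c) (hed : e ≠ d) :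
    good (a ^^^ b) (a ^^^ b ^^^ c) (a ^^^ b ^^^ c ^^^ d) (a ^^^ b ^^^ c ^^^ d ^^^ e) = true := by
  have nb : ∀ {x y : ℕ}, x ≠ y → Nat.beq x y = false := fun {x y} h => by
    rw [← Bool.not_eq_true, Nat.beq_eq]
    exact h
  have h := checkA
  unfold checkAll at h
  rw [List.all_eq_true] at h
  have h1 := h a ha
  rw [List.all_eq_true] at h1
  have h2 := h1 b hb
  have hab' : Nat.blt a b = true := by
    rw [Nat.blt_eq]
    exact hab
  rw [hab', cond_true, List.all_eq_true] at h2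
  have h3 := h2 c hc
  rw [nb hca, nb hcb, Bool.or_false, cond_false, List.all_eq_true] at h3
  have h4 := h3 d hd
  rw [nb hda, nb hdb, nb hdc, Bool.or_false, Bool.or_false, cond_false, List.all_eq_true] at h4
  have h5 := h4 e he
  rw [nb hea, nb heb, nb hec, nb hed, Bool.or_false, Bool.or_false, Bool.or_false,
    cond_false] at h5
  exact h5

theorem good_of {a b c d e : ℕ} (ha : a ∈ pendL) (hb : b ∈ pendL) (hc : c ∈ pendL)
    (hd : d ∈ pendL) (he : e ∈ pendL) (hab : a ≠ b) (hca : c ≠ a) (hcb : c ≠ b) (hda : d ≠ a)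
    (hdb : d ≠ b) (hdc : d ≠ c) (hea : e ≠ a) (heb : e ≠ b) (hec : e ≠ c) (hed : e ≠ d) :
    good (a ^^^ b) (a ^^^ b ^^^ c) (a ^^^ b ^^^ c ^^^ d) (a ^^^ b ^^^ c ^^^ d ^^^ e) = true := by
  rcases lt_or_gt_of_ne hab with h | h
  · exact good_of_lt ha hb hc hd he h hca hcb hda hdb hdc hea heb hec hed
  · have := good_of_lt hb ha hc hd he h hcb hca hdb hda hdc heb hea hec hed
    rwa [Nat.xor_comm b a] at this

theorem pend_mem : ∀ x : Fin 7, pend x ∈ pendL := by decide +kernel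

theorem mem_pendL {m : ℕ} (h : m ∈ pendL) : ∃ x : Fin 7, m = pend x := by
  have h1 : ∀ m ∈ pendL, ∃ x : Fin 7, m = pend x := by decide +kernel
  exact h1 m h

theorem pend_inj : ∀ x y : Fin 7, x ≠ y → pend x ≠ pend y := by decide +kernel

theorem pend_test : ∀ x i j : Fin 7, (pend x).testBit (7 * i + j) = ((x == i) != (x == j)) := by
  decide +kernel

theorem pend_test' (σ : Equiv.Perm (Fin 7)) (x i j : Fin 7) :
    (pend (σ x)).testBit (7 * i + j) = ((x == σ.symm i) != (x == σ.symm j)) := by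
  have h : ∀ i : Fin 7, (σ x == i) = (x == σ.symm i) := by
    intro i
    rw [Bool.eq_iff_iff, beq_iff_eq, beq_iff_eq]
    exact (Equiv.eq_symm_apply σ).symm
  rw [pend_test, h, h]

/-- the masks of the caterpillar with the order `σ` of the leaves -/
def mσ (σ : Equiv.Perm (Fin 7)) : Fin 12 → ℕ := ![0,
  pend (σ 0) ^^^ pend (σ 1),
  pend (σ 0) ^^^ pend (σ 1) ^^^ pend (σ 2),
  pend (σ 0) ^^^ pend (σ 1) ^^^ pend (σ 2) ^^^ pend (σ 3),
  pend (σ 0) ^^^ pend (σ 1) ^^^ pend (σ 2) ^^^ pend (σ 3) ^^^ pend (σ 4),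
  pend (σ 0), pend (σ 1), pend (σ 2), pend (σ 3), pend (σ 4), pend (σ 5), pend (σ 6)]

theorem masksσ (σ : Equiv.Perm (Fin 7)) : Masks DK (Ls σ) (mσ σ) := by
  intro v hv i j
  unfold Ls
  have t : ∀ x, (pend (σ x)).testBit (7 * i + j) = ((x == σ.symm i) != (x == σ.symm j)) :=
    fun x => pend_test' σ x i j
  generalize σ.symm i = a at t ⊢
  generalize σ.symm j = b at t ⊢
  fin_cases v
  · exact absurd rfl hv
  · show (pend (σ 0) ^^^ pend (σ 1)).testBit (7 * i + j) = _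
    simp only [Nat.testBit_xor, t]
    clear t
    revert a b
    decide
  · show (pend (σ 0) ^^^ pend (σ 1) ^^^ pend (σ 2)).testBit (7 * i + j) = _
    simp only [Nat.testBit_xor, t]
    clear t
    revert a b
    decide
  · show (pend (σ 0) ^^^ pend (σ 1) ^^^ pend (σ 2) ^^^ pend (σ 3)).testBit (7 * i + j) = _
    simp only [Nat.testBit_xor, t]
    clear t
    revert a b
    decide
  · show (pend (σ 0) ^^^ pend (σ 1) ^^^ pend (σ 2) ^^^ pend (σ 3) ^^^ pend (σ 4)).testBit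
      (7 * i + j) = _
    simp only [Nat.testBit_xor, t]
    clear t
    revert a b
    decide
  · show (pend (σ 0)).testBit (7 * i + j) = _
    rw [t]
    clear t
    revert a b
    decide
  · show (pend (σ 1)).testBit (7 * i + j) = _
    rw [t]
    clear t
    revert a b
    decide
  · show (pend (σ 2)).testBit (7 * i + j) = _
    rw [t]
    clear t
    revert a b
    decide
  · show (pend (σ 3)).testBit (7 * i + j) = _
    rw [t]
    clear t
    revert a b
    decide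
  · show (pend (σ 4)).testBit (7 * i + j) = _
    rw [t]
    clear t
    revert a b
    decide
  · show (pend (σ 5)).testBit (7 * i + j) = _
    rw [t]
    clear t
    revert a b
    decide
  · show (pend (σ 6)).testBit (7 * i + j) = _
    rw [t]
    clear t
    revert a b
    decide

theorem exists_rel {D : Fin 12 → Fin 12 → Bool} {L : Fin 7 → Fin 12} {mk : Fin 12 → ℕ}
    (hm : Masks D L mk) {c : ℕ} (h : ∀ k, c.testBit k = true →
      ∃ v : Fin 12, v ≠ 0 ∧ Nat.beq (Nat.land (mk v) c) (mk v) = true ∧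
        (mk v).testBit k = true) : ∃ r ∈ PP D L, IsCode c r := by
  refine ⟨relOf D L {v | Nat.beq (Nat.land (mk v) c) (mk v) = true}, ⟨_, rfl⟩,
    isCode_of hm fun k => ⟨fun hk => ?_, ?_⟩⟩
  · obtain ⟨v, h1, h2, h3⟩ := h k hk
    exact ⟨v, h1, h2, h3⟩
  · rintro ⟨v, h1, h2, h3⟩
    exact sub_iff.1 h2 k h3

theorem beq_sub_trans {m q c : ℕ} (h1 : Nat.beq (Nat.land m q) m = true)
    (h2 : Nat.beq (Nat.land q c) q = true) : Nat.beq (Nat.land m c) m = true :=
  sub_iff.2 fun k hk => sub_iff.1 h2 k (sub_iff.1 h1 k hk)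

theorem lor_test (a b k : ℕ) : (Nat.lor a b).testBit k = (a.testBit k || b.testBit k) :=
  Nat.testBit_lor a b k

theorem sel_test {m c k : ℕ} (h : (sel m c).testBit k = true) :
    Nat.beq (Nat.land m c) m = true ∧ m.testBit k = true := by
  unfold sel at h
  cases h1 : Nat.beq (Nat.land m c) m
  · rw [h1, cond_false] at h
    simp at h
  · rw [h1, cond_true] at h
    exact ⟨rfl, h⟩

theorem pend_mσ (σ : Equiv.Perm (Fin 7)) (y : Fin 7) : ∃ v : Fin 12, v ≠ 0 ∧ mσ σ v = pend (σ y) := by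
  fin_cases y
  · exact ⟨5, by decide, rfl⟩
  · exact ⟨6, by decide, rfl⟩
  · exact ⟨7, by decide, rfl⟩
  · exact ⟨8, by decide, rfl⟩
  · exact ⟨9, by decide, rfl⟩
  · exact ⟨10, by decide, rfl⟩
  · exact ⟨11, by decide, rfl⟩

theorem pend_mσ' (σ : Equiv.Perm (Fin 7)) (y : Fin 7) : ∃ v : Fin 12, v ≠ 0 ∧ mσ σ v = pend y := by
  obtain ⟨v, h1, h2⟩ := pend_mσ σ (σ.symm y)
  exact ⟨v, h1, by rw [h2, Equiv.apply_symm_apply]⟩

/-- candidates which pass the test are partitions of the caterpillar -/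
theorem ok_rel (σ : Equiv.Perm (Fin 7)) {x : ℕ × ℕ} (hx : fixB pendL x.1 = true)
    (hok : okc (mσ σ 1) (mσ σ 2) (mσ σ 3) (mσ σ 4) x = true) :
    ∃ r ∈ PP DK (Ls σ), IsCode x.2 r := by
  refine exists_rel (masksσ σ) fun k hk => ?_
  have h1 : Nat.lor (Nat.lor (Nat.lor (Nat.lor x.1 (sel (mσ σ 1) x.2)) (sel (mσ σ 2) x.2))
      (sel (mσ σ 3) x.2)) (sel (mσ σ 4) x.2) = x.2 := by
    unfold okc at hok
    rwa [Nat.beq_eq] at hok
  have hq : Nat.beq (Nat.land x.1 x.2) x.1 = true := by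
    refine sub_iff.2 fun k hk => ?_
    rw [← h1]
    simp only [lor_test, hk, Bool.true_or]
  have h2 := hk
  rw [← h1] at h2
  simp only [lor_test, Bool.or_eq_true] at h2
  rcases h2 with (((h2 | h2) | h2) | h2) | h2
  · obtain ⟨m, hm, h3, h4⟩ := fixB_iff.1 hx k h2
    obtain ⟨y, rfl⟩ := mem_pendL hm
    obtain ⟨v, hv, hv2⟩ := pend_mσ' σ y
    refine ⟨v, hv, ?_, ?_⟩
    · rw [hv2]
      exact beq_sub_trans h3 hq
    · rw [hv2]
      exact h4
  · obtain ⟨h3, h4⟩ := sel_test h2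
    exact ⟨1, by decide, h3, h4⟩
  · obtain ⟨h3, h4⟩ := sel_test h2
    exact ⟨2, by decide, h3, h4⟩
  · obtain ⟨h3, h4⟩ := sel_test h2
    exact ⟨3, by decide, h3, h4⟩
  · obtain ⟨h3, h4⟩ := sel_test h2
    exact ⟨4, by decide, h3, h4⟩

/-- unions of codes of splits of leaves are partitions of the caterpillar -/
theorem base_rel (σ : Equiv.Perm (Fin 7)) {c : ℕ} (hx : fixB pendL c = true) :
    ∃ r ∈ PP DK (Ls σ), IsCode c r := by
  refine exists_rel (masksσ σ) fun k hk => ?_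
  obtain ⟨m, hm, h3, h4⟩ := fixB_iff.1 hx k hk
  obtain ⟨y, rfl⟩ := mem_pendL hm
  obtain ⟨v, hv, hv2⟩ := pend_mσ' σ y
  exact ⟨v, hv, by rw [hv2]; exact h3, by rw [hv2]; exact h4⟩

theorem base_fix : ∀ c ∈ baseL, fixB pendL c = true := by decide +kernel
theorem ext_fix : ∀ x ∈ extL, fixB pendL x.1 = true := by decide +kernel
theorem ext_ok : ∀ x ∈ extL, okc (mσ 1 1) (mσ 1 2) (mσ 1 3) (mσ 1 4) x = true := by
  decide +kernel
theorem all_nodup : (baseL ++ extL.map Prod.snd).Nodup := by decide +kernel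
theorem all_lt : ∀ c ∈ baseL ++ extL.map Prod.snd, c < 2 ^ 49 := by decide +kernel
theorem base_len : baseL.length = 121 := by decide +kernel

theorem le_ncard_one (σ : Equiv.Perm (Fin 7)) :
    126 ≤ (PP DK (Ls 1) ∩ PP DK (Ls σ)).ncard := by
  have ne : ∀ x y : Fin 7, x ≠ y → pend (σ x) ≠ pend (σ y) := fun x y h =>
    pend_inj _ _ fun h' => h (σ.injective h')
  have hgood : good (mσ σ 1) (mσ σ 2) (mσ σ 3) (mσ σ 4) = true :=
    good_of (pend_mem _) (pend_mem _) (pend_mem _) (pend_mem _) (pend_mem _)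
      (ne 0 1 (by decide)) (ne 2 0 (by decide)) (ne 2 1 (by decide)) (ne 3 0 (by decide))
      (ne 3 1 (by decide)) (ne 3 2 (by decide)) (ne 4 0 (by decide)) (ne 4 1 (by decide))
      (ne 4 2 (by decide)) (ne 4 3 (by decide))
  have h5 := le_length_of_atLeast _ _ _ hgood
  let l : List ℕ := baseL ++
    (extL.filter (okc (mσ σ 1) (mσ σ 2) (mσ σ 3) (mσ σ 4))).map Prod.snd
  have hsub : l.Sublist (baseL ++ extL.map Prod.snd) :=
    List.Sublist.append_left (List.Sublist.map _ List.filter_sublist) _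
  have hlen : 126 ≤ l.length := by
    show 126 ≤ (baseL ++ _).length
    rw [List.length_append, base_len, List.length_map]
    omega
  refine hlen.trans (le_ncard (all_nodup.sublist hsub) (fun c hc => all_lt c (hsub.subset hc)) ?_)
  intro c hc
  rcases List.mem_append.1 hc with hc | hc
  · exact ⟨base_rel 1 (base_fix c hc), base_rel σ (base_fix c hc)⟩
  · obtain ⟨x, hx, rfl⟩ := List.mem_map.1 hc
    obtain ⟨hx1, hx2⟩ := List.mem_filter.1 hx
    exact ⟨ok_rel 1 (ext_fix x hx1) (ext_ok x hx1), ok_rel σ (ext_fix x hx1) hx2⟩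

theorem le_ncard_two (ρ τ : Equiv.Perm (Fin 7)) :
    126 ≤ (PP DK (Ls ρ) ∩ PP DK (Ls τ)).ncard := by
  refine (le_ncard_one (τ.trans ρ.symm)).trans ?_
  refine Set.ncard_le_ncard_of_injOn (fun r => r.comap ρ.symm) ?_ ?_
  · rintro r ⟨⟨A, hA⟩, ⟨A', hA'⟩⟩
    refine ⟨⟨A, ?_⟩, ⟨A', ?_⟩⟩
    · rw [← hA]
      rfl
    · rw [← hA']
      ext i j
      show (∀ v, v ≠ 0 → v ∈ A' → DK v (Ls τ i) = DK v (Ls τ j)) ↔
        (∀ v, v ≠ 0 → v ∈ A' → DK v (Ls (τ.trans ρ.symm) (ρ.symm i)) =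
          DK v (Ls (τ.trans ρ.symm) (ρ.symm j)))
      have h : ∀ i, Ls (τ.trans ρ.symm) (ρ.symm i) = Ls τ i := by
        intro i
        unfold Ls
        rw [Equiv.symm_trans_apply, Equiv.symm_symm, Equiv.apply_symm_apply]
      rw [h, h]
  · intro r _ r' _ h
    ext i j
    have h1 : (r.comap ρ.symm) (ρ i) (ρ j) ↔ (r'.comap ρ.symm) (ρ i) (ρ j) := by
      have h' : r.comap ρ.symm = r'.comap ρ.symm := h
      rw [h']
    simpa [Setoid.comap_rel] using h1

end Pool.Agent.R709.TR
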