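import Pool.Agent.R709.TR.Cat
import Pool.Agent.R709.TR.Lower

/-!
`s₇ ≤ 125 < 126 = c₇`.
-/

set_option autoImplicit false

namespace Pool.Agent.R709.TR

theorem Ls_one : Ls 1 = L₀ := rfl

theorem sMin_le : sMin 7 ≤ 125 := by
  have h1 : ((catTree 1).P ∩ nonTree.P).ncard ≤ 125 :=
    (Set.ncard_le_ncard (Set.inter_subset_inter (P_catTree 1) P_nonTree)).trans ncard_KF
  unfold sMin
  refine (Nat.sInf_le ?_).trans h1
  exact ⟨catTree 1, nonTree, rfl⟩

/-- the order of the leaves of the relabeled caterpillar -/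
def σ₀ : Equiv.Perm (Fin 7) where
  toFun := ![0, 5, 2, 4, 3, 1, 6]
  invFun := ![0, 5, 2, 4, 3, 1, 6]
  left_inv := by decide
  right_inv := by decide

theorem Ls_σ₀ : Ls σ₀ = L₁ := by
  funext x
  revert x
  decide

theorem cMin_le : cMin 7 ≤ 126 := by
  have h1 : ((catTree 1).P ∩ (catTree σ₀).P).ncard ≤ 126 := by
    refine (Set.ncard_le_ncard (Set.inter_subset_inter (P_catTree 1) (P_catTree σ₀))).trans ?_
    rw [Ls_σ₀]
    exact ncard_KS
  unfold cMin
  refine (Nat.sInf_le ?_).trans h1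
  exact ⟨catTree 1, catTree σ₀, catTree_isCaterpillar 1, catTree_isCaterpillar σ₀, rfl⟩

theorem le_cMin : 126 ≤ cMin 7 := by
  refine le_csInf ⟨_, catTree 1, catTree 1, catTree_isCaterpillar 1, catTree_isCaterpillar 1,
    rfl⟩ ?_
  rintro k ⟨T, F, hT, hF, rfl⟩
  obtain ⟨ρ, hρ⟩ := cat_P T hT
  obtain ⟨τ, hτ⟩ := cat_P F hF
  exact (le_ncard_two ρ τ).trans (Set.ncard_le_ncard (Set.inter_subset_inter hρ hτ))

theorem main : sMin 7 ≤ 125 ∧ cMin 7 = 126 ∧ sMin 7 < cMin 7 := by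
  have h1 := sMin_le
  have h2 := le_antisymm cMin_le le_cMin
  exact ⟨h1, h2, by omega⟩

end Pool.Agent.R709.TR
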