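import Pool.Agent.R709.TR.Codes

/-!
The explicit trees.
-/

set_option autoImplicit false

namespace Pool.Agent.R709.TR

/-- `relOf` in terms of reachability -/
theorem reach_relOf {p : Fin 12 → Fin 12} (hp : ∀ v, v ≠ 0 → p v < v)
    {D : Fin 12 → Fin 12 → Bool} (hD : IsDesc p D) (L : Fin 7 → Fin 12)
    (E : Set (Sym2 (Fin 12))) (i j : Fin 7) :
    ((parG p hp).deleteEdges E).Reachable (L i) (L j) ↔ relOf D L {v | s(v, p v) ∈ E} i j :=
  reach_iff hp hD E (L i) (L j)

section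
variable {p : Fin 12 → Fin 12} (hp : ∀ v, v ≠ 0 → p v < v)

instance : DecidableRel (parG p hp).Adj := fun u v => by
  unfold parG
  infer_instance

theorem ncard_nbr (v : Fin 12) : ((parG p hp).neighborSet v).ncard =
    (Finset.univ.filter fun w => (v ≠ 0 ∧ p v = w) ∨ (w ≠ 0 ∧ p w = v)).card := by
  classical
  rw [Set.ncard_eq_toFinset_card']
  congr 1
  ext w
  simp [parG]

end

theorem cardK : ∀ v : Fin 12, (Finset.univ.filter fun w => (v ≠ 0 ∧ pK v = w) ∨
    (w ≠ 0 ∧ pK w = v)).card = if v < 5 then 3 else 1 := by decide +kernel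

theorem cardF : ∀ v : Fin 12, (Finset.univ.filter fun w => (v ≠ 0 ∧ pF v = w) ∨
    (w ≠ 0 ∧ pF w = v)).card = if v < 5 then 3 else 1 := by decide +kernel

theorem ncardK (v : Fin 12) : ((parG pK hpK).neighborSet v).ncard = if v < 5 then 3 else 1 := by
  rw [ncard_nbr, cardK]

theorem ncardF (v : Fin 12) : ((parG pF hpF).neighborSet v).ncard = if v < 5 then 3 else 1 := by
  rw [ncard_nbr, cardF]

theorem Ls_inj (σ : Equiv.Perm (Fin 7)) : Function.Injective (Ls σ) := by
  intro x y h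
  exact σ.symm.injective (Fin.natAdd_injective _ _ h)

theorem range_Ls (σ : Equiv.Perm (Fin 7)) : Set.range (Ls σ) = {v | ¬ v < 5} := by
  ext v
  constructor
  · rintro ⟨x, rfl⟩ h
    have h1 : 5 + ((σ.symm x : Fin 7) : ℕ) < 5 := h
    omega
  · intro h
    have h1 : ¬ (v : ℕ) < 5 := h
    refine ⟨σ ⟨v - 5, by omega⟩, ?_⟩
    unfold Ls
    rw [Equiv.symm_apply_apply]
    apply Fin.ext
    show 5 + ((v : ℕ) - 5) = v
    omega

/-- the caterpillar with the order `σ` of the leaves -/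
def catTree (σ : Equiv.Perm (Fin 7)) : LTree 7 where
  V := Fin 12
  finite := inferInstance
  G := parG pK hpK
  isTree := parG_isTree hpK descK
  deg v := by
    rw [ncardK]
    split_ifs
    · exact Or.inr rfl
    · exact Or.inl rfl
  leaf := Ls σ
  leaf_inj := Ls_inj σ
  range_leaf := by
    rw [range_Ls]
    ext v
    simp only [Set.mem_ofPred_eq, ncardK]
    split_ifs with h <;> simp [h]

/-- the tree which is not a caterpillar -/
def nonTree : LTree 7 where
  V := Fin 12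
  finite := inferInstance
  G := parG pF hpF
  isTree := parG_isTree hpF descF
  deg v := by
    rw [ncardF]
    split_ifs
    · exact Or.inr rfl
    · exact Or.inl rfl
  leaf := Ls 1
  leaf_inj := Ls_inj 1
  range_leaf := by
    rw [range_Ls]
    ext v
    simp only [Set.mem_ofPred_eq, ncardF]
    split_ifs with h <;> simp [h]

theorem P_catTree (σ : Equiv.Perm (Fin 7)) : (catTree σ).P ⊆ PP DK (Ls σ) := by
  rintro r ⟨E, -, rfl⟩
  refine ⟨{v | s(v, pK v) ∈ E}, ?_⟩
  ext i j
  exact (reach_relOf hpK descK (Ls σ) E i j).symm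

theorem P_nonTree : nonTree.P ⊆ PP DF (Ls 1) := by
  rintro r ⟨E, -, rfl⟩
  refine ⟨{v | s(v, pF v) ∈ E}, ?_⟩
  ext i j
  exact (reach_relOf hpF descF (Ls 1) E i j).symm

theorem catTree_isCaterpillar (σ : Equiv.Perm (Fin 7)) : (catTree σ).IsCaterpillar := by
  refine Or.inr ⟨5, ⟨?_⟩⟩
  have hmem : ∀ v : Fin 12, v ∈ {v | v ∉ Set.range (catTree σ).leaf} ↔ v < 5 := by
    intro v
    show v ∉ Set.range (Ls σ) ↔ _
    rw [range_Ls]
    simp
  refine
    { toFun := fun v => ⟨Fin.val (n := 12) v.1, (hmem v.1).1 v.2⟩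
      invFun := fun i => ⟨Fin.castLE (by norm_num) i, (hmem _).2 i.2⟩
      left_inv := fun v => by
        apply Subtype.ext
        rfl
      right_inv := fun i => rfl
      map_rel_iff' := ?_ }
  have key : ∀ v w : Fin 12, v < 5 → w < 5 →
      (((v : ℕ) + 1 = w ∨ (w : ℕ) + 1 = v) ↔ ((v ≠ 0 ∧ pK v = w) ∨ (w ≠ 0 ∧ pK w = v))) := by
    decide
  rintro ⟨v, hv⟩ ⟨w, hw⟩
  exact SimpleGraph.pathGraph_adj.trans (key v w ((hmem v).1 hv) ((hmem w).1 hw))

end Pool.Agent.R709.TR
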